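import Pool.Agent.MP_efb2da_gt.Cvx

open scoped Manifold ContDiff
open Set Real Pool.Agent.MP_efb2da_gt

namespace Pool.Agent.Results.MP_efb2da_gt.ConvexNearCircle

/-- The circle is not the only plane curve bounding an `H`-surface with `|H| = L / (2|D|)`: for
all large `k` there is a convex non-circular one with `k`-fold rotational symmetry, as close to
the circle of radius `1/2` in `C^m` as we like. -/
theorem result : ∀ (m : ℕ) (ε : ℝ), 0 < ε → ∃ K : ℕ, ∀ k : ℕ, K ≤ k → ∃ γ : ℝ → E2,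
    ContDiff ℝ ∞ γ ∧ Function.Periodic γ 1 ∧ InjOn γ (Ico 0 1) ∧ (∀ s, deriv γ s ≠ 0) ∧
    (∀ (c : E2) (R : ℝ), range γ ≠ Metric.sphere c R) ∧ Convex ℝ (inside (range γ)) ∧
    (∀ s, γ (s + 1 / k) = !₂[cos (2 * π / k) * γ s 0 - sin (2 * π / k) * γ s 1,
      sin (2 * π / k) * γ s 0 + cos (2 * π / k) * γ s 1]) ∧
    (∀ j ≤ m, ∀ s, ‖iteratedDeriv j
      (fun t => γ t - !₂[cos (2 * π * t) / 2, sin (2 * π * t) / 2]) s‖ ≤ ε) ∧
    0 < area (inside (range γ)) ∧
    ∃ (M : Type) (_ : TopologicalSpace M) (_ : ChartedSpace (EuclideanHalfSpace 2) M)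
      (_ : IsManifold (𝓡∂ 2) ∞ M) (_ : T2Space M) (_ : CompactSpace M) (_ : ConnectedSpace M)
      (f N : M → E3) (H : ℝ), IsHSurface f N H ∧
        BijOn f ((𝓡∂ 2).boundary M) (incl '' range γ) ∧
        |H| = len γ / (2 * area (inside (range γ))) :=
  Cv_final

end Pool.Agent.Results.MP_efb2da_gt.ConvexNearCircle
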