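import Pool.Agent.MP_efb2da_gt.Emb.Final

open scoped Manifold ContDiff
open Set Pool.Agent.MP_efb2da_gt

namespace Pool.Agent.Results.MP_efb2da_gt.EmbeddedCap

/-- An embedded `H`-surface bounded by a simple closed plane curve, with `|H| = L / (2|D|)` or
with `H ≠ 0` and constant contact angle, is a spherical cap and the curve is a circle.
The curve is not assumed convex and the surface may cross the plane. -/
theorem result (M : Type) [TopologicalSpace M] [ChartedSpace (EuclideanHalfSpace 2) M]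
    [IsManifold (𝓡∂ 2) ∞ M] [T2Space M] [CompactSpace M] [ConnectedSpace M]
    (f N : M → E3) (H : ℝ) (γ : ℝ → E2) (hγ : ContDiff ℝ 1 γ) (hp : Function.Periodic γ 1)
    (hi : InjOn γ (Ico 0 1)) (hr : ∀ s, deriv γ s ≠ 0) (hS : IsHSurface f N H)
    (hf : Function.Injective f) (hb : BijOn f ((𝓡∂ 2).boundary M) (incl '' range γ))
    (hH : |H| = len γ / (2 * area (inside (range γ))) ∨
      (H ≠ 0 ∧ ∃ c : ℝ, ∀ p ∈ (𝓡∂ 2).boundary M, N p 2 = c)) :
    H ≠ 0 ∧ (∃ (c : E2) (R : ℝ), 0 < R ∧ range γ = Metric.sphere c R) ∧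
      ∃ o : E3, (range f = Metric.sphere o |H|⁻¹ ∩ {x | 0 ≤ x 2} ∨
        range f = Metric.sphere o |H|⁻¹ ∩ {x | x 2 ≤ 0}) ∧
        (|H| = len γ / (2 * area (inside (range γ))) → o 2 = 0) :=
  Emb.final M f N H γ hγ hp hi hr hS hf hb hH

end Pool.Agent.Results.MP_efb2da_gt.EmbeddedCap
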